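import Pool.Agent.helper92.VC.Spec

universe u

namespace Pool.Agent.helper92.VC

open MvPolynomial

/-- the polynomial computed by matrices along a list of variables -/
noncomputable def abp {K : Type u} [CommRing K] {n w : ℕ} (l : List (Fin n))
    (M : Fin n → Matrix (Fin w) (Fin w) (Polynomial K)) (u v : Fin w → K) :
    MvPolynomial (Fin n) K :=
  (fun s => C (u s)) ⬝ᵥ
      (Matrix.mulVec (l.map fun x => (M x).map fun p =>
        Polynomial.aeval (X x : MvPolynomial (Fin n) K) p).prod (fun s => C (v s)))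

theorem POL_perm {n : ℕ} (l : List (Fin n)) (hl : l.Perm (List.finRange n)) :
    ∃ τ : Equiv.Perm (Fin n), l = List.ofFn τ := by
  have hlen : l.length = n := by simpa using hl.length_eq
  have hnd : l.Nodup := hl.nodup_iff.2 (List.nodup_finRange n)
  have hinj : Function.Injective fun i : Fin n => l.get (Fin.cast hlen.symm i) := by
    intro i j hij
    have := List.nodup_iff_injective_get.1 hnd hij
    simpa using this
  refine ⟨Equiv.ofBijective _ (Finite.injective_iff_bijective.1 hinj), ?_⟩
  apply List.ext_get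
  · simp [hlen]
  · intro i h1 h2
    simp

theorem POL_roabp_abp {K : Type u} [CommRing K] {n w : ℕ} {A : MvPolynomial (Fin n) K}
    (h : IsROABP w A) : ∃ (l : List (Fin n)) (M : Fin n → Matrix (Fin w) (Fin w) (Polynomial K))
      (u v : Fin w → K), l.Perm (List.finRange n) ∧ A = abp l M u v := by
  obtain ⟨τ, M, u, v, rfl⟩ := h
  refine ⟨List.ofFn τ, fun x => M (τ.symm x), u, v, ?_, ?_⟩
  · rw [List.ofFn_eq_map]
    refine (List.perm_ext_iff_of_nodup ((List.nodup_finRange n).map τ.injective)
      (List.nodup_finRange n)).2 fun x => ?_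
    simp only [List.mem_map, List.mem_finRange, true_and, iff_true]
    exact τ.surjective x
  · unfold abp
    rw [List.map_ofFn]
    congr 4
    funext i
    simp

theorem POL_abp_roabp {K : Type u} [CommRing K] {n w : ℕ} (l : List (Fin n))
    (hl : l.Perm (List.finRange n)) (M : Fin n → Matrix (Fin w) (Fin w) (Polynomial K))
    (u v : Fin w → K) : IsROABP w (abp l M u v) := by
  obtain ⟨τ, rfl⟩ := POL_perm l hl
  refine ⟨τ, fun i => M (τ i), u, v, ?_⟩
  unfold abp
  rw [List.map_ofFn]
  rfl

theorem POL_coeff_dot {K : Type u} [CommRing K] {n w : ℕ} (e : Fin n →₀ ℕ)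
    (P : Matrix (Fin w) (Fin w) (MvPolynomial (Fin n) K)) (u v : Fin w → K) :
    MvPolynomial.coeff e ((fun s => C (u s)) ⬝ᵥ (Matrix.mulVec P (fun s => C (v s))))
      = u ⬝ᵥ Matrix.mulVec (P.map fun p => MvPolynomial.coeff e p) v := by
  simp only [dotProduct, Matrix.mulVec, MvPolynomial.coeff_sum, MvPolynomial.coeff_C_mul,
    Matrix.map_apply]
  refine Finset.sum_congr rfl fun i _ => ?_
  congr 1
  refine Finset.sum_congr rfl fun j _ => ?_
  rw [mul_comm, MvPolynomial.coeff_C_mul, mul_comm]

theorem POL_coeff (hCOE : COE_stmt.{u}) {K : Type u} [Field K] {n w : ℕ} (l : List (Fin n))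
    (hl : l.Perm (List.finRange n)) (M : Fin n → Matrix (Fin w) (Fin w) (Polynomial K))
    (u v : Fin w → K) (e : Fin n →₀ ℕ) :
    MvPolynomial.coeff e (abp l M u v)
      = u ⬝ᵥ Matrix.mulVec (l.map fun x => (M x).map fun p => p.coeff (e x)).prod v := by
  unfold abp
  rw [POL_coeff_dot]
  congr 2
  ext a b
  rw [Matrix.map_apply, hCOE n K w M l (hl.nodup_iff.2 (List.nodup_finRange n)) a b e, if_pos]
  intro y hy
  exact absurd (hl.mem_iff.2 (List.mem_finRange y)) hy

theorem POL_prod_zero {K : Type u} [CommRing K] {ι : Type} {w : ℕ} (l : List ι)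
    (P : ι → Matrix (Fin w) (Fin w) K) (x : ι) (hx : x ∈ l) (h : P x = 0) :
    (l.map P).prod = 0 := by
  induction l with
  | nil => simp at hx
  | cons y s ih =>
    rw [List.map_cons, List.prod_cons]
    rcases List.mem_cons.1 hx with rfl | hx
    · rw [h, zero_mul]
    · rw [ih hx, mul_zero]

theorem POL_pad {K : Type u} [CommRing K] {n N N' w : ℕ} (hN : N ≤ N')
    {f : MvPolynomial (Fin n) K} (h : IsSumROABP N w f) : IsSumROABP N' w f := by
  obtain ⟨B, hB, rfl⟩ := h
  obtain ⟨t, rfl⟩ := Nat.exists_eq_add_of_le hN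
  refine ⟨Fin.append B (fun _ => 0), ?_, ?_⟩
  · intro i
    refine Fin.addCases (fun i => ?_) (fun i => ?_) i
    · rw [Fin.append_left]; exact hB i
    · rw [Fin.append_right]
      have h0 := POL_abp_roabp (K := K) (n := n) (w := w) (List.finRange n) (List.Perm.refl _)
        (fun _ => 0) (fun _ => 0) (fun _ => 0)
      have h1 : abp (K := K) (n := n) (w := w) (List.finRange n) (fun _ => 0) (fun _ => 0)
        (fun _ => 0) = 0 := by
        unfold abp
        simp [dotProduct]
      rwa [h1] at h0
  · rw [Fin.sum_univ_add]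
    simp

theorem POL (hCLM : CLM_stmt.{u}) (hCOE : COE_stmt.{u}) (hMON : MON_stmt.{u})
    (hRIN : RIN_stmt.{u}) (hNIS : NIS_stmt.{u}) : POL_stmt.{u} := by
  intro R K k _ _ _ _ _ _ _ π n c w d G hG hd
  obtain ⟨B, hB, hGB⟩ := hG
  choose l M u v hl hBl using fun i => POL_roabp_abp (hB i)
  obtain ⟨N, O, hN, -, hO, H⟩ := hCLM (Fin n) R K k π (c + 1) (List.finRange n) l
    (List.nodup_finRange n) hl
  simp only [List.length_finRange, Nat.add_sub_cancel] at hN
  obtain ⟨U, hU1, hU2⟩ := H w d (fun e => MvPolynomial.coeff (Finsupp.equivFunOnFinite.symm e) G)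
    (fun i e => MvPolynomial.coeff (Finsupp.equivFunOnFinite.symm e) (B i)) (by
      intro i
      refine hMON (Fin n) K w w _ _ _ le_rfl ?_ (hRIN (Fin n) K w
        (fun x j => (M i x).map fun p => p.coeff j) (v i) (l i)
        ((hl i).nodup_iff.2 (List.nodup_finRange n)))
      rintro _ rfl
      refine ⟨u i, ?_⟩
      funext e
      rw [hBl i, POL_coeff hCOE _ (hl i)]
      rfl) (by
      intro e
      rw [← MvPolynomial.coeff_map, hGB, MvPolynomial.coeff_sum])
  choose M' v' hM' using fun J => hNIS (Fin n) k (width (c + 1) w d) (O J) {U J} (fun _ => 0)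
    ((hO J).nodup_iff.2 (List.nodup_finRange n)) (hU1 J)
  choose u' hu' using fun J => hM' J (U J) rfl
  have hu'' : ∀ J (e : Fin n → ℕ), U J e
      = u' J ⬝ᵥ Matrix.mulVec ((O J).map fun x => M' J x (e x)).prod (v' J) := fun J e =>
    hu' J e fun y hy => absurd ((hO J).mem_iff.2 (List.mem_finRange y)) hy
  refine POL_pad hN ⟨fun J => abp (O J) (fun x => Matrix.of fun a b =>
    ∑ j ∈ Finset.range (d + 1), Polynomial.monomial j (M' J x j a b)) (u' J) (v' J),
    fun J => POL_abp_roabp _ (hO J) _ _ _, ?_⟩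
  ext e
  rw [MvPolynomial.coeff_sum]
  simp only [POL_coeff hCOE _ (hO _)]
  have hcf : ∀ J x, ((Matrix.of fun a b =>
      ∑ j ∈ Finset.range (d + 1), Polynomial.monomial j (M' J x j a b)).map
        fun p => Polynomial.coeff p (e x)) = if e x ≤ d then M' J x (e x) else 0 := by
    intro J x
    ext a b
    simp only [Matrix.map_apply, Matrix.of_apply, Polynomial.finsetSum_coeff,
      Polynomial.coeff_monomial]
    rw [Finset.sum_ite_eq']
    by_cases h : e x ≤ d
    · rw [if_pos h, if_pos (Finset.mem_range.2 (Nat.lt_succ_of_le h))]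
    · rw [if_neg h, if_neg (fun h' => h (Nat.le_of_lt_succ (Finset.mem_range.1 h')))]
      rfl
  simp only [hcf]
  by_cases he : ∀ x, e x ≤ d
  · have h1 := hU2 (fun x => e x) fun x _ => he x
    have h2 : (Finsupp.equivFunOnFinite.symm fun x => e x) = e := by
      ext x; rfl
    rw [h2] at h1
    rw [MvPolynomial.coeff_map, h1]
    refine Finset.sum_congr rfl fun J _ => ?_
    rw [hu'' J]
    simp only [he, if_true]
  · push Not at he
    obtain ⟨x, hx⟩ := he
    have h1 : MvPolynomial.coeff e (MvPolynomial.map π G) = 0 := by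
      by_contra hne
      have := MvPolynomial.monomial_le_degreeOf x (MvPolynomial.mem_support_iff.2 hne)
      have := hd x
      omega
    rw [h1]
    symm
    refine Finset.sum_eq_zero fun J _ => ?_
    rw [POL_prod_zero (O J) _ x ((hO J).mem_iff.2 (List.mem_finRange x)) (by
      rw [if_neg (by omega)])]
    simp

end Pool.Agent.helper92.VC
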