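import Pool.Agent.helper92.VC.Defs

/-!
# Debordering constant sums of read-once oblivious branching programs: the rows

Notation. `ι` is the set of variables, a tensor is a function `T : (ι → ℕ) → K` of the exponent
vector, `restr x j T` fixes the exponent of `x` to be `j`. `ROs K w l S` is Nisan's condition for
the set `S` of tensors in the order `l`.

General facts about `ROs` (all by induction on the list `l`):

* MON (monotone), SPN (span), UNI (unions), ERS (restrictions).

* LMV: elimination over a valuation ring. Induction on `w` for vectors `y c` in `K^w`: choose `s`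
such that the first coordinate of `y s` divides, over `R`, the first coordinates of all `y c`
(finite set, total divisibility preorder on `K`), subtract, and apply the induction hypothesis to
the tails. Then pass to the span of `w` vectors `g` of an arbitrary vector space by writing
`y c = ∑ ρ c i • g i`.

* CLM: the main theorem for tensors, by induction on the number `c` of summands, with the inner
statement `Inner` proved by induction on the order `V` of the first summand.

* COE: coefficients of products of matrices of univariate polynomials in distinct variables.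
* RIN: the coefficient tensor of an ROABP satisfies Nisan's condition.
* NIS: the converse over a field (Nisan).
* POL: the debordering theorem for polynomials over a valuation ring.
* CST: straight-line complexity of a sum of ROABPs; PBD, VNV: polynomially bounded sequences,
`VP ⊆ VNP`; RTF: from `k(ε)` to `k((ε))`.
-/

universe u

namespace Pool.Agent.helper92.VC

open MvPolynomial

/-- MON. Monotone in the width and the set. Induction on `l`; a span of `w` functions is
contained in a span of `w'` functions (extend `g` by zero: `g' i = if h : i < w then g ⟨i,h⟩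
else 0`). -/
def MON_stmt : Prop := ∀ (ι : Type) [DecidableEq ι] (K : Type u) [Field K] (w w' : ℕ)
  (l : List ι) (S S' : Set ((ι → ℕ) → K)), w ≤ w' → S' ⊆ S → ROs K w l S → ROs K w' l S'

/-- SPN. Induction on `l`: `restr x j` is linear, so the restrictions of elements of `span S` lie
in the span of the restrictions of elements of `S`; use the monotonicity (prove it inline or
take MON as a hypothesis). -/
def SPN_stmt : Prop := ∀ (ι : Type) [DecidableEq ι] (K : Type u) [Field K] (w : ℕ)
  (l : List ι) (S : Set ((ι → ℕ) → K)),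
  ROs K w l S → ROs K w l (Submodule.span K S : Set ((ι → ℕ) → K))

/-- UNI. Finite unions. Induction on `l`; the functions `g` for the union are indexed by
`Fin m × Fin w`, which is in bijection with `Fin (m * w)` (`finProdFinEquiv`). -/
def UNI_stmt : Prop := ∀ (ι : Type) [DecidableEq ι] (K : Type u) [Field K] (w m : ℕ)
  (l : List ι) (S : Fin m → Set ((ι → ℕ) → K)),
  (∀ i, ROs K w l (S i)) → ROs K (m * w) l (⋃ i, S i)

/-- ERS. Restrictions. Induction on `l`. For `l = y :: s` with `y ≠ x`: the image of a span under
the linear map `restr x j`, and `restr y i (restr x j T) = restr x j (restr y i T)`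
(`Function.update_comm`). For `y = x`: `(x :: s).erase x = s` and the second part of the
hypothesis. In the nil case the image of a span under a linear map. -/
def ERS_stmt : Prop := ∀ (ι : Type) [DecidableEq ι] (K : Type u) [Field K] (w : ℕ)
  (l : List ι) (S : Set ((ι → ℕ) → K)) (x : ι) (j : ℕ),
  ROs K w l S → ROs K w (l.erase x) (restr x j '' S)

/-- LMV. Elimination over a valuation ring (see above). -/
def LMV_stmt : Prop := ∀ (R K : Type u) [CommRing R] [IsDomain R] [ValuationRing R] [Field K]
  [Algebra R K] [IsFractionRing R K] (E : Type u) [AddCommGroup E] [Module K E]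
  (C : Type) [Fintype C] (w : ℕ) (g : Fin w → E) (y : C → E),
  (∀ c, y c ∈ Submodule.span K (Set.range g)) →
  ∃ (m : ℕ) (b : Fin m → C) (r : C → Fin m → R), m ≤ w ∧
    ∀ c, y c = ∑ t, algebraMap R K (r c t) • y (b t)

/-- The claim for `c` summands. -/
def Claim (ι : Type) [DecidableEq ι] (R K k : Type u) [CommRing R] [Field K] [Algebra R K]
    [Field k] (π : R →+* k) (c : ℕ) : Prop :=
  ∀ (V : List ι) (L : Fin c → List ι), V.Nodup → (∀ i, (L i).Perm V) →
    ∃ (N : ℕ) (O : Fin N → List ι), N ≤ (V.length + 1) ^ (c - 1) ∧ (c = 0 → N = 0) ∧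
      (∀ J, (O J).Perm V) ∧
      ∀ (w d : ℕ) (F : (ι → ℕ) → R) (A : Fin c → (ι → ℕ) → K), (∀ i, ROs K w (L i) {A i}) →
        (∀ e, algebraMap R K (F e) = ∑ i, A i e) →
        ∃ U : Fin N → (ι → ℕ) → k, (∀ J, ROs k (width c w d) (O J) {U J}) ∧
          ∀ e : ι → ℕ, (∀ x ∈ V, e x ≤ d) → π (F e) = ∑ J, U J e

/-- The inner statement: `c + 1` summands, the first one for a whole family of at most `w + 1`
tensors, whose first parts satisfy Nisan's condition jointly, in the order `V`. -/
def Inner (ι : Type) [DecidableEq ι] (R K k : Type u) [CommRing R] [Field K] [Algebra R K]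
    [Field k] (π : R →+* k) (c : ℕ) : Prop :=
  ∀ (V : List ι) (L : Fin c → List ι), V.Nodup → (∀ i, (L i).Perm V) →
    ∃ (N : ℕ) (O : Fin N → List ι), N ≤ (V.length + 1) ^ c ∧ (∀ J, (O J).Perm V) ∧
      ∀ (w d m : ℕ), m ≤ w + 1 → ∀ (F : Fin m → (ι → ℕ) → R) (S : Fin m → (ι → ℕ) → K)
        (A : Fin m → Fin c → (ι → ℕ) → K),
        ROs K w V (Set.range S) → (∀ a i, ROs K w (L i) {A a i}) →
        (∀ a e, algebraMap R K (F a e) = S a e + ∑ i, A a i e) →
        ∃ U : Fin N → Fin m → (ι → ℕ) → k,
          (∀ J, ROs k (width (c + 1) w d) (O J) (Set.range (U J))) ∧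
          ∀ a, ∀ e : ι → ℕ, (∀ x ∈ V, e x ≤ d) → π (F a e) = ∑ J, U J a e

/-- STP. From the claim for `c` to the inner statement for `c`. Induction on `V`.

`V = []`: `N = 1`, `O = []`, `U 0 a = π ∘ F a`; `ROs _ _ []` is `DimLE`, and
`m ≤ w + 1 ≤ width (c+1) w d`.

`V = x :: s`: apply LMV to the functions `y (a,j) = restr x j (S a)`, `j ≤ d`, which lie in the
span of `w` functions. This gives `m' ≤ w`, `b : Fin m' → Fin m × Fin (d+1)` and `r`. Put
`F (a,j) = restr x j (F a)`, and `N (a,j) = F (a,j) - ∑ t, r (a,j) t * F (b t)`; its image in `K`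
is the sum over `i < c` of `A (a,j) i - ∑ t, r (a,j) t * A (b t) i`, which satisfies
`ROs (w * (w+1)) ((L i).erase x)` (ERS, UNI, SPN, MON). Apply the claim for `c` to `N (a,j)`, the
order `s` and the lists `(L i).erase x`: orders `O₁`, tensors `U₁ (a,j) J`. Apply the induction
hypothesis to the family `F (b t)`, `t < m'`: orders `O₂`, tensors `U₂ J t`. The orders for
`x :: s` are `x :: O₂ J` and `x :: O₁ J`, the tensors are

`U J a e = ∑ t, π (r (a, e x) t) * U₂ J t (update e x 0)` if `e x ≤ d`, else `0`, and
`U J a e = U₁ (a, e x) J (update e x 0)` if `e x ≤ d`, else `0`. -/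
def STP_stmt : Prop := ∀ (ι : Type) [DecidableEq ι] (R K k : Type u) [CommRing R] [IsDomain R]
  [ValuationRing R] [Field K] [Algebra R K] [IsFractionRing R K] [Field k] (π : R →+* k)
  (c : ℕ), Claim ι R K k π c → Inner ι R K k π c

/-- CLM. The claim for all `c`: for `c = 0` the tensor is zero; for `c + 1` take `m = 1` in the
inner statement, with `V` replaced by the first list. -/
def CLM_stmt : Prop := ∀ (ι : Type) [DecidableEq ι] (R K k : Type u) [CommRing R] [IsDomain R]
  [ValuationRing R] [Field K] [Algebra R K] [IsFractionRing R K] [Field k] (π : R →+* k)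
  (c : ℕ), Claim ι R K k π c

/-- COE. Coefficients of a product of matrices of univariate polynomials in distinct variables:
induction on the list `l`. For `x :: s`: the entry is
`∑ b, (M x a b)(X x) * (∏_{s} ...) b a'`, the second factor has only monomials without `x`, so the
coefficient at `e` is `∑ b, coeff (e x) (M x a b) * coeff (e with e x := 0) (...)`. -/
def COE_stmt : Prop := ∀ (n : ℕ) (K : Type u) [Field K] (w : ℕ)
  (M : Fin n → Matrix (Fin w) (Fin w) (Polynomial K)) (l : List (Fin n)), l.Nodup →
  ∀ (a b : Fin w) (e : Fin n →₀ ℕ),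
  MvPolynomial.coeff e ((l.map fun x => (M x).map fun p =>
      Polynomial.aeval (X x : MvPolynomial (Fin n) K) p).prod a b)
    = if ∀ y, y ∉ l → e y = 0 then (l.map fun x => (M x).map fun p => p.coeff (e x)).prod a b
      else 0

/-- RIN. The tensor of a product of matrices satisfies Nisan's condition. Induction on the
duplicate free list `l`, for the set of all `u ⬝ᵥ (∏_{x ∈ l} M x (e x)) *ᵥ v` with `u` arbitrary:
restriction of the first variable `x` to `j` replaces `u` by `u ᵥ* M x j` (the rest of the product
does not depend on `e x`), and the set is in the span of the `w` functions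
`e ↦ ((∏_{x ∈ l} M x (e x)) *ᵥ v) t`. -/
def RIN_stmt : Prop := ∀ (ι : Type) [DecidableEq ι] (K : Type u) [Field K] (w : ℕ)
  (M : ι → ℕ → Matrix (Fin w) (Fin w) K) (v : Fin w → K) (l : List ι), l.Nodup →
  ROs K w l {T | ∃ u : Fin w → K, T = fun e : ι → ℕ =>
    u ⬝ᵥ Matrix.mulVec (l.map fun x => M x (e x)).prod v}

/-- NIS. The converse of RIN over a field (Nisan), for all exponent vectors which agree with `e₀`
outside `l`. Induction on the duplicate free list `l`, for sets `S`.

`l = []`: `S` is contained in the span of `g : Fin w → _`; `v t = g t e₀`, and `u` are the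
coefficients (at `e = e₀` on the nose).

`l = x :: s`: apply the induction hypothesis to `S' = {restr x j T | T ∈ S, j}`: matrices `M`
and a vector `v`, such that every `T' ∈ S'` is `u ⬝ᵥ (∏_s M y (e y)) *ᵥ v` for the `e` which agree
with `e₀` outside `s`; this holds then for all `T' ∈ span S'`. Since `S` is in the span of `w`
functions and `K` is a field, there are `g : Fin w → _` in `span S` with `S ⊆ span g` (a basis of
`span S`, extended by zeros). `restr x j (g a) ∈ span S'` has a vector `u a j`; put
`M x j a = u a j` (leaving the other matrices). Then `g a e = (restr x (e x) (g a)) (update e x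
(e₀ x))` and `x ∉ s`. -/
def NIS_stmt : Prop := ∀ (ι : Type) [DecidableEq ι] (K : Type u) [Field K] (w : ℕ)
  (l : List ι) (S : Set ((ι → ℕ) → K)) (e₀ : ι → ℕ), l.Nodup → ROs K w l S →
  ∃ (M : ι → ℕ → Matrix (Fin w) (Fin w) K) (v : Fin w → K), ∀ T ∈ S, ∃ u : Fin w → K,
    ∀ e : ι → ℕ, (∀ y, y ∉ l → e y = e₀ y) →
      T e = u ⬝ᵥ Matrix.mulVec (l.map fun x => M x (e x)).prod v

/-- POL. The debordering theorem for polynomials over a valuation ring. -/
def POL_stmt : Prop := ∀ (R K k : Type u) [CommRing R] [IsDomain R] [ValuationRing R] [Field K]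
  [Algebra R K] [IsFractionRing R K] [Field k] (π : R →+* k) (n c w d : ℕ)
  (G : MvPolynomial (Fin n) R), IsSumROABP (c + 1) w (MvPolynomial.map (algebraMap R K) G) →
  (∀ i, (MvPolynomial.map π G).degreeOf i ≤ d) →
  IsSumROABP ((n + 1) ^ c) (width (c + 1) w d) (MvPolynomial.map π G)

/-- CST. Straight-line complexity of a sum of `N` ROABPs of width `w` whose individual degrees are
at most `d` (truncate the matrices at degree `d`; by COE the truncated sum is the same polynomial).
One ROABP: the powers of the variables cost `n * d` operations, the entries of the matrices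
`n * w^2 * 2 * (d+1)`, the products of matrices with vectors `n * 2 * w^2`, and `2 * w` for `u`. -/
def CST_stmt : Prop := ∀ (n N w d : ℕ) (k : Type u) [Field k] (f : MvPolynomial (Fin n) k),
  IsSumROABP N w f → (∀ i, f.degreeOf i ≤ d) →
  ComputedIn f (N * (8 * (n + 1) * (d + 1) * (w + 1) ^ 2 + 1))

/-- PBD. Polynomially bounded sequences. -/
def PBD_stmt : Prop :=
  (∀ c : ℕ, PolyBdd fun _ => c) ∧
  (∀ a b : ℕ → ℕ, (∀ n, a n ≤ b n) → PolyBdd b → PolyBdd a) ∧
  (∀ a b : ℕ → ℕ, PolyBdd a → PolyBdd b → PolyBdd fun n => a n + b n) ∧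
  (∀ a b : ℕ → ℕ, PolyBdd a → PolyBdd b → PolyBdd fun n => a n * b n) ∧
  (∀ (a : ℕ → ℕ) (c : ℕ), PolyBdd a → PolyBdd fun n => a n ^ c)

/-- VNV. `VP ⊆ VNP` (`m = 0`). -/
def VNV_stmt : Prop := ∀ (k : Type u) [Field k], VP k ⊆ VNP k

/-- RTF. From `k(ε)` to `k((ε))`: an approximation by a sum of ROABPs over `k(ε)` gives a
polynomial over `k[[ε]]` whose image over `k((ε))` is a sum of ROABPs and whose constant
coefficients are those of `f`. (`RatFunc.coeAlgHom`; a rational function `p/q` with `q(0) ≠ 0` is
the power series `p * q⁻¹`.) -/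
def RTF_stmt : Prop := ∀ (k : Type u) [Field k] (n c w : ℕ) (f : MvPolynomial (Fin n) k)
  (F : MvPolynomial (Fin n) (RatFunc k)), IsSumROABP c w F → SpecializesTo F f →
  ∃ G : MvPolynomial (Fin n) (PowerSeries k),
    IsSumROABP c w (MvPolynomial.map (algebraMap (PowerSeries k) (LaurentSeries k)) G) ∧
    MvPolynomial.map (PowerSeries.constantCoeff (R := k)) G = f

/-- FIN. The result: debordering of constant sums of ROABPs. -/
def FIN_stmt : Prop := ∀ (k : Type u) [Field k],
  (∀ (n c w d : ℕ) (f : MvPolynomial (Fin n) k) (F : MvPolynomial (Fin n) (RatFunc k)),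
    (∀ i, f.degreeOf i ≤ d) → IsSumROABP (c + 1) w F → SpecializesTo F f →
    IsSumROABP ((n + 1) ^ c) ((d + 1) ^ c * (w + 1) ^ (2 ^ (c + 1) - 1)) f) ∧
  (∀ (c : ℕ) (F : Family k) (w : ℕ → ℕ), F.IsP → PolyBdd w →
    (∀ n, ∃ G : MvPolynomial (Fin (F.v n)) (RatFunc k),
      IsSumROABP c (w n) G ∧ SpecializesTo G (F.f n)) → F ∈ VP k ∧ F ∈ VNP k)

end Pool.Agent.helper92.VC
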