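import Pool.Agent.helper92.VC.Spec

universe u

namespace Pool.Agent.helper92.VC

theorem CLM (hMON : MON_stmt.{u}) (hSTP : STP_stmt.{u}) : CLM_stmt.{u} := by
  intro ι _ R K k _ _ _ _ _ _ _ π c
  induction c with
  | zero =>
    intro V L hV hL
    refine ⟨0, fun J => J.elim0, by simp, fun _ => rfl, fun J => J.elim0, ?_⟩
    intro w d F A hA hF
    refine ⟨fun J => J.elim0, fun J => J.elim0, fun e he => ?_⟩
    have : F e = 0 := by
      apply IsFractionRing.injective R K
      rw [hF, map_zero]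
      simp
    simp [this]
  | succ c ih =>
    intro V L hV hL
    have hin := hSTP ι R K k π c ih
    have hp0 : (L 0).Perm V := hL 0
    obtain ⟨N, O, hN, hO, H⟩ := hin (L 0) (fun i => L i.succ) (hp0.nodup_iff.2 hV)
      (fun i => (hL i.succ).trans hp0.symm)
    refine ⟨N, O, ?_, by simp, fun J => (hO J).trans hp0, ?_⟩
    · rw [hp0.length_eq] at hN
      simpa using hN
    intro w d F A hA hF
    obtain ⟨U, hU1, hU2⟩ := H w d 1 (by omega) (fun _ => F) (fun _ => A 0)
      (fun _ i => A i.succ) (by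
        refine hMON ι K w w _ _ _ le_rfl ?_ (hA 0)
        rintro _ ⟨_, rfl⟩
        rfl) (fun _ i => hA i.succ)
      (fun _ e => by rw [hF e, Fin.sum_univ_succ])
    refine ⟨fun J => U J 0, fun J => ?_, fun e he => ?_⟩
    · refine hMON ι k _ _ _ _ _ le_rfl ?_ (hU1 J)
      rintro _ rfl
      exact ⟨0, rfl⟩
    · exact hU2 0 e fun x hx => he x (hp0.mem_iff.1 hx)

end Pool.Agent.helper92.VC
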