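import Pool.Agent.helper92.VC.POL

universe u

namespace Pool.Agent.helper92.VC

open MvPolynomial

theorem FIN_one (hPOL : POL_stmt.{u}) (hRTF : RTF_stmt.{u}) (k : Type u) [Field k]
    (n c w d : ℕ) (f : MvPolynomial (Fin n) k) (F : MvPolynomial (Fin n) (RatFunc k))
    (hd : ∀ i, f.degreeOf i ≤ d) (hF : IsSumROABP (c + 1) w F) (hs : SpecializesTo F f) :
    IsSumROABP ((n + 1) ^ c) (width (c + 1) w d) f := by
  obtain ⟨G, hG, hGf⟩ := hRTF k n (c + 1) w f F hF hs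
  have := hPOL (PowerSeries k) (LaurentSeries k) k (PowerSeries.constantCoeff (R := k)) n c w d G
    hG (by rw [hGf]; exact hd)
  rwa [hGf] at this

theorem FIN (hPOL : POL_stmt.{u}) (hRTF : RTF_stmt.{u}) (hCST : CST_stmt.{u})
    (hPBD : PBD_stmt) (hVNV : VNV_stmt.{u}) : FIN_stmt.{u} := by
  intro k _
  refine ⟨fun n c w d f F hd hF hs => FIN_one hPOL hRTF k n c w d f F hd hF hs, ?_⟩
  intro c F w hF hw hG
  obtain ⟨hconst, hle, hadd, hmul, hpow⟩ := hPBD
  have hVP : F ∈ VP k := by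
    refine ⟨hF, ?_⟩
    have hcost : ∀ n, complexity (F.f n) ≤ (F.v n + 1) ^ c *
        (8 * (F.v n + 1) * ((F.f n).totalDegree + 1) *
          (((F.f n).totalDegree + 1) ^ c * (w n + 1) ^ (2 ^ (c + 1) - 1) + 1) ^ 2 + 1) := by
      intro n
      obtain ⟨G, hG1, hG2⟩ := hG n
      have h1 := FIN_one hPOL hRTF k (F.v n) c (w n) (F.f n).totalDegree (F.f n) G
        (fun i => MvPolynomial.degreeOf_le_totalDegree _ _) (POL_pad (Nat.le_succ c) hG1) hG2
      exact Nat.sInf_le (hCST _ _ _ _ k _ h1 fun i => MvPolynomial.degreeOf_le_totalDegree _ _)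
    refine hle _ _ hcost ?_
    have hv1 : PolyBdd fun n => F.v n + 1 := hadd _ _ hF.1 (hconst 1)
    have hd1 : PolyBdd fun n => (F.f n).totalDegree + 1 := hadd _ _ hF.2 (hconst 1)
    have hw1 : PolyBdd fun n => w n + 1 := hadd _ _ hw (hconst 1)
    refine hmul _ _ (hpow _ c hv1) (hadd _ _ (hmul _ _ (hmul _ _ (hmul _ _ (hconst 8) hv1) hd1)
      (hpow _ 2 (hadd _ _ (hmul _ _ (hpow _ c hd1) (hpow _ _ hw1)) (hconst 1)))) (hconst 1))
  exact ⟨hVP, hVNV k hVP⟩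

end Pool.Agent.helper92.VC
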