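import Pool.Agent.helper92.VC.Spec

universe u

namespace Pool.Agent.helper92.VC

theorem MON : MON_stmt.{u} := by
  intro ι _ K _ w w' l
  have key : ∀ S S' : Set ((ι → ℕ) → K), w ≤ w' → S' ⊆ S → DimLE K w S → DimLE K w' S' := by
    rintro S S' hw hS ⟨g, hg⟩
    refine ⟨fun i => if h : i.1 < w then g ⟨i.1, h⟩ else 0, fun T hT => ?_⟩
    refine Submodule.span_le.2 ?_ (hg (hS hT))
    rintro _ ⟨a, rfl⟩
    refine Submodule.subset_span ⟨⟨a.1, lt_of_lt_of_le a.2 hw⟩, ?_⟩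
    simp
  induction l with
  | nil => exact fun S S' hw hS h => key S S' hw hS h
  | cons x s ih =>
    rintro S S' hw hS ⟨h1, h2⟩
    refine ⟨key S S' hw hS h1, ih _ _ hw ?_ h2⟩
    rintro _ ⟨T, hT, j, rfl⟩
    exact ⟨T, hS hT, j, rfl⟩

end Pool.Agent.helper92.VC
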