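import Pool.Agent.helper92.VC.STP
import Pool.Agent.helper92.VC.CLM
import Pool.Agent.helper92.VC.POL
import Pool.Agent.helper92.VC.FIN
import Pool.Agent.helper92.VC.MON
import Pool.Agent.helper66.VC.SPN
import Pool.Agent.helper16.VC.UNI
import Pool.Agent.helper79.VC.ERS
import Pool.Agent.helper89.VC.LMV
import Pool.Agent.helper38.VC.COE
import Pool.Agent.helper57.VC.RIN
import Pool.Agent.helper88.VC.NIS
import Pool.Agent.helper22.VC.CST
import Pool.Agent.helper18.VC.PBD
import Pool.Agent.helper52.VC.VNV
import Pool.Agent.helper44.VC.RTF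

/-! The rows put together. -/

universe u

namespace Pool.Agent.helper92.VC

theorem POL_all : POL_stmt.{u} :=
  POL (CLM MON (STP MON SPN UNI ERS LMV)) COE MON RIN NIS

theorem FIN_all : FIN_stmt.{u} :=
  FIN POL_all RTF (CST COE) PBD VNV

end Pool.Agent.helper92.VC
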