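import Mathlib

/-!
# Straight-line complexity, the classes VP and VNP, approximation, sums of read-once
oblivious algebraic branching programs

Definitions for MP_dc9173_lc (is the closure of VP contained in VNP?).
-/

namespace Pool.Agent.helper92.VC

open MvPolynomial

section slp

variable {σ k : Type*} [CommRing k]

/-- An operand which is available after the results in the list `l` have been computed: a
variable, a constant (constants are free) or one of the earlier results. -/
def Avail (l : List (MvPolynomial σ k)) (a : MvPolynomial σ k) : Prop :=
  (∃ i, a = X i) ∨ (∃ c, a = C c) ∨ a ∈ l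

/-- Division free straight-line programs, as lists of results, the latest result first. Every
result is the sum, the difference or the product of two available operands. -/
inductive SLP : List (MvPolynomial σ k) → Prop
  | nil : SLP []
  | add (l : List (MvPolynomial σ k)) (a b : MvPolynomial σ k) :
      SLP l → Avail l a → Avail l b → SLP ((a + b) :: l)
  | sub (l : List (MvPolynomial σ k)) (a b : MvPolynomial σ k) :
      SLP l → Avail l a → Avail l b → SLP ((a - b) :: l)
  | mul (l : List (MvPolynomial σ k)) (a b : MvPolynomial σ k) :
      SLP l → Avail l a → Avail l b → SLP ((a * b) :: l)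

/-- `f` is computed by a straight-line program with at most `r` operations. -/
def ComputedIn (f : MvPolynomial σ k) (r : ℕ) : Prop :=
  ∃ l : List (MvPolynomial σ k), SLP l ∧ l.length ≤ r ∧ Avail l f

/-- The straight-line complexity `L(f)`: the least number of additions, subtractions and
multiplications in a straight-line program which computes `f`. -/
noncomputable def complexity (f : MvPolynomial σ k) : ℕ := sInf {r | ComputedIn f r}

end slp

/-- A sequence of natural numbers is polynomially bounded. -/
def PolyBdd (a : ℕ → ℕ) : Prop := ∃ c : ℕ, ∀ n, a n ≤ n ^ c + c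

/-- A sequence of polynomials `f n` in `v n` variables. -/
structure Family (k : Type*) [CommRing k] where
  /-- the number of variables -/
  v : ℕ → ℕ
  /-- the polynomials -/
  f : ∀ n, MvPolynomial (Fin (v n)) k

/-- A p-family: the number of variables and the degree are polynomially bounded. -/
def Family.IsP {k : Type*} [CommRing k] (F : Family k) : Prop :=
  PolyBdd F.v ∧ PolyBdd fun n => (F.f n).totalDegree

/-- Valiant's class `VP`: the p-families of polynomially bounded straight-line complexity. -/
def VP (k : Type*) [CommRing k] : Set (Family k) :=
  {F | F.IsP ∧ PolyBdd fun n => complexity (F.f n)}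

/-- Valiant's class `VNP`: the p-families of the form `f_n(X) = ∑ g_n(X, e)`, the sum over
`e ∈ {0,1}^(m n)`, with `g ∈ VP` and `m` polynomially bounded. -/
def VNP (k : Type*) [CommRing k] : Set (Family k) :=
  {F | F.IsP ∧ ∃ m : ℕ → ℕ, PolyBdd m ∧
    ∃ g : ∀ n, MvPolynomial (Fin (F.v n + m n)) k,
      (Family.mk (fun n => F.v n + m n) g) ∈ VP k ∧
      ∀ n, F.f n = ∑ e : Fin (m n) → Fin 2,
        aeval (Fin.append (fun i : Fin (F.v n) => (X i : MvPolynomial (Fin (F.v n)) k))
          (fun j : Fin (m n) => C ((e j : ℕ) : k))) (g n)}

/-- `F`, with coefficients in `k(ε)`, lies in `R[X]` and `F_{ε=0} = f`: all coefficients of `F`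
are defined at `ε = 0` and their values there are the coefficients of `f`. -/
def SpecializesTo {k σ : Type*} [Field k] (F : MvPolynomial σ (RatFunc k))
    (f : MvPolynomial σ k) : Prop :=
  ∀ m, Polynomial.eval 0 (RatFunc.denom (F.coeff m)) ≠ 0 ∧
    RatFunc.eval (RingHom.id k) 0 (F.coeff m) = f.coeff m

/-- The approximative complexity: the least `r` such that some `F` with `F_{ε=0} = f` has
straight-line complexity at most `r` over `k(ε)`. -/
noncomputable def approxComplexity {k σ : Type*} [Field k] (f : MvPolynomial σ k) : ℕ :=
  sInf {r | ∃ F : MvPolynomial σ (RatFunc k), SpecializesTo F f ∧ ComputedIn F r}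

/-- The closure of `VP`: p-families of polynomially bounded approximative complexity. -/
def VPbar (k : Type*) [Field k] : Set (Family k) :=
  {F | F.IsP ∧ PolyBdd fun n => approxComplexity (F.f n)}

/-- `A` is computed by a read-once oblivious algebraic branching program of width `w`: there are
an order `τ` of the variables, `w × w` matrices `M i` of univariate polynomials and vectors
`u, v` of constants such that `A = uᵀ M_1(X_{τ 1}) ⋯ M_n(X_{τ n}) v`. -/
def IsROABP {K : Type*} [CommRing K] {n : ℕ} (w : ℕ) (A : MvPolynomial (Fin n) K) : Prop :=
  ∃ (τ : Equiv.Perm (Fin n)) (M : Fin n → Matrix (Fin w) (Fin w) (Polynomial K))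
    (u v : Fin w → K),
    A = (fun s => C (u s)) ⬝ᵥ
      (Matrix.mulVec (List.ofFn fun i : Fin n =>
        (M i).map fun p => Polynomial.aeval (X (τ i) : MvPolynomial (Fin n) K) p).prod
        (fun s => C (v s)))

/-- `A` is a sum of `c` read-once oblivious algebraic branching programs of width `w`, each with
its own order of the variables. -/
def IsSumROABP {K : Type*} [CommRing K] {n : ℕ} (c w : ℕ) (A : MvPolynomial (Fin n) K) : Prop :=
  ∃ B : Fin c → MvPolynomial (Fin n) K, (∀ i, IsROABP w (B i)) ∧ A = ∑ i, B i

section tensors

variable {ι : Type*} [DecidableEq ι] {K : Type*}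

/-- Functions of the exponent vector. `restr x j T` is `T` with the exponent of `x` fixed to
be `j`. -/
def restr (x : ι) (j : ℕ) (T : (ι → ℕ) → K) : (ι → ℕ) → K :=
  fun e => T (Function.update e x j)

/-- The set `S` of functions is contained in the span of `w` functions. -/
def DimLE (K : Type*) [CommRing K] (w : ℕ) (S : Set ((ι → ℕ) → K)) : Prop :=
  ∃ g : Fin w → ((ι → ℕ) → K), S ⊆ (Submodule.span K (Set.range g) : Set ((ι → ℕ) → K))

/-- Nisan's condition for the set `S` and the order `l` of the variables: for every prefix of
`l`, the set of all restrictions of elements of `S` along the prefix is contained in the span of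
`w` functions. -/
def ROs (K : Type*) [CommRing K] (w : ℕ) : List ι → Set ((ι → ℕ) → K) → Prop
  | [], S => DimLE K w S
  | x :: s, S => DimLE K w S ∧ ROs K w s {T' | ∃ T ∈ S, ∃ j, T' = restr x j T}

end tensors

/-- The width in the debordering theorem. -/
def width (c w d : ℕ) : ℕ := (d + 1) ^ (c - 1) * (w + 1) ^ (2 ^ c - 1)

end Pool.Agent.helper92.VC
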