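import Pool.Agent.helper92.VC.Spec

universe u

namespace Pool.Agent.helper92.VC

theorem STP_dim {ι : Type} [DecidableEq ι] {K : Type u} [Field K] {w : ℕ} {l : List ι}
    {S : Set ((ι → ℕ) → K)} (h : ROs K w l S) : DimLE K w S := by
  cases l with
  | nil => exact h
  | cons x s => exact h.1

theorem STP_dimRange {ι : Type} {K : Type u} [Field K] {m W : ℕ} (hm : m ≤ W)
    (f : Fin m → ((ι → ℕ) → K)) : DimLE K W (Set.range f) := by
  refine ⟨fun i => if h : i.1 < m then f ⟨i.1, h⟩ else 0, ?_⟩
  rintro _ ⟨a, rfl⟩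
  refine Submodule.subset_span ⟨⟨a.1, lt_of_lt_of_le a.2 hm⟩, ?_⟩
  simp

theorem STP_width (c w d m : ℕ) (hc : 1 ≤ c) (hm : m ≤ w + 1) :
    (m * (d + 1)) * width c (w * (w + 1)) d ≤ width (c + 1) w d := by
  unfold width
  obtain ⟨c, rfl⟩ : ∃ c', c = c' + 1 := ⟨c - 1, by omega⟩
  simp only [Nat.add_sub_cancel]
  have h1 : w * (w + 1) + 1 ≤ (w + 1) ^ 2 := by nlinarith
  have h2 : (w * (w + 1) + 1) ^ (2 ^ (c + 1) - 1) ≤ (w + 1) ^ (2 * (2 ^ (c + 1) - 1)) := by
    rw [pow_mul]; exact Nat.pow_le_pow_left h1 _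
  have h3 : 2 ^ (c + 1 + 1) - 1 = 1 + 2 * (2 ^ (c + 1) - 1) := by
    have := Nat.one_le_two_pow (n := c + 1)
    rw [pow_succ 2 (c + 1)]
    omega
  calc (m * (d + 1)) * ((d + 1) ^ c * (w * (w + 1) + 1) ^ (2 ^ (c + 1) - 1))
      ≤ ((w + 1) * (d + 1)) * ((d + 1) ^ c * (w + 1) ^ (2 * (2 ^ (c + 1) - 1))) := by
        gcongr
    _ = (d + 1) ^ (c + 1) * (w + 1) ^ (2 ^ (c + 1 + 1) - 1) := by
        rw [h3, pow_add, pow_succ (d + 1) c]; ring

theorem STP_width' (c w d : ℕ) : w + 1 ≤ width (c + 1) w d := by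
  unfold width
  have h1 : 1 ≤ (d + 1) ^ (c + 1 - 1) := Nat.one_le_pow _ _ (Nat.succ_pos d)
  have h2 : (w + 1) ^ 1 ≤ (w + 1) ^ (2 ^ (c + 1) - 1) := by
    apply Nat.pow_le_pow_right (Nat.succ_pos w)
    have : 2 ^ 1 ≤ 2 ^ (c + 1) := Nat.pow_le_pow_right (by norm_num) (by omega)
    omega
  calc w + 1 = 1 * (w + 1) ^ 1 := by ring
    _ ≤ _ := Nat.mul_le_mul h1 h2

theorem STP_count (n c N₁ N₂ : ℕ) (h₂ : N₂ ≤ (n + 1) ^ c) (h₁ : N₁ ≤ (n + 1) ^ (c - 1))
    (h0 : c = 0 → N₁ = 0) : N₂ + N₁ ≤ (n + 1 + 1) ^ c := by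
  rcases Nat.eq_zero_or_pos c with hc | hc
  · subst hc
    rw [h0 rfl]
    simpa using h₂
  · obtain ⟨c, rfl⟩ : ∃ c', c = c' + 1 := ⟨c - 1, by omega⟩
    simp only [Nat.add_sub_cancel] at h₁
    calc N₂ + N₁ ≤ (n + 1) ^ (c + 1) + (n + 1) ^ c := Nat.add_le_add h₂ h₁
      _ = (n + 1) ^ c * (n + 1 + 1) := by ring
      _ ≤ (n + 1 + 1) ^ c * (n + 1 + 1) := by gcongr; omega
      _ = _ := by ring

theorem STP_restr_update {ι : Type} [DecidableEq ι] {K : Type u} (x : ι) (j i : ℕ)
    (T : (ι → ℕ) → K) (e : ι → ℕ) : restr x j T (Function.update e x i) = restr x j T e := by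
  simp [restr]

theorem STP (hMON : MON_stmt.{u}) (hSPN : SPN_stmt.{u}) (hUNI : UNI_stmt.{u})
    (hERS : ERS_stmt.{u}) (hLMV : LMV_stmt.{u}) : STP_stmt.{u} := by
  intro ι _ R K k _ _ _ _ _ _ _ π c hC V
  induction V with
  | nil =>
    intro L _ _
    refine ⟨1, fun _ => [], by simp, fun _ => List.Perm.refl _, ?_⟩
    intro w d m hm F S A hS hA hF
    refine ⟨fun _ a e => π (F a e), fun J => ?_, fun a e _ => by simp⟩
    exact STP_dimRange (hm.trans (STP_width' c w d)) _
  | cons x s ih =>
    intro L hV hL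
    have hx : x ∉ s := (List.nodup_cons.1 hV).1
    have hs : s.Nodup := (List.nodup_cons.1 hV).2
    have hL' : ∀ i, ((L i).erase x).Perm s := fun i => by simpa using (hL i).erase x
    obtain ⟨N₂, O₂, hN₂, hO₂, H₂⟩ := ih (fun i => (L i).erase x) hs hL'
    obtain ⟨N₁, O₁, hN₁, hN₁0, hO₁, H₁⟩ := hC s (fun i => (L i).erase x) hs hL'
    have hxO₂ : ∀ J, (O₂ J).erase x = O₂ J := fun J =>
      List.erase_of_not_mem fun h => hx ((hO₂ J).mem_iff.1 h)
    have hxO₁ : ∀ J, (O₁ J).erase x = O₁ J := fun J =>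
      List.erase_of_not_mem fun h => hx ((hO₁ J).mem_iff.1 h)
    refine ⟨N₂ + N₁, fun J => x :: Fin.append O₂ O₁ J, ?_, ?_, ?_⟩
    · simpa using STP_count s.length c N₁ N₂ hN₂ hN₁ hN₁0
    · intro J
      refine Fin.addCases (fun J => ?_) (fun J => ?_) J
      · simpa using hO₂ J
      · simpa using hO₁ J
    intro w d m hm F S A hS hA hF
    obtain ⟨hS0, hS1⟩ := hS
    obtain ⟨g, hg⟩ := STP_dim hS1
    obtain ⟨m', b, r, hm', hy⟩ := hLMV R K ((ι → ℕ) → K) (Fin m × Fin (d + 1)) w g
      (fun p => restr x (p.2 : ℕ) (S p.1))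
      (fun p => hg ⟨S p.1, ⟨p.1, rfl⟩, (p.2 : ℕ), rfl⟩)
    have hAr : ∀ (p : Fin m × Fin (d + 1)) (i : Fin c),
        ROs K w ((L i).erase x) {restr x (p.2 : ℕ) (A p.1 i)} := by
      intro p i
      have := hERS ι K w (L i) {A p.1 i} x (p.2 : ℕ) (hA p.1 i)
      rwa [Set.image_singleton] at this
    -- the tensors of the claim
    have hAA : ∀ (p : Fin m × Fin (d + 1)) (i : Fin c), ROs K (w * (w + 1)) ((L i).erase x)
        {restr x (p.2 : ℕ) (A p.1 i) -
          ∑ t, algebraMap R K (r p t) • restr x ((b t).2 : ℕ) (A (b t).1 i)} := by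
      intro p i
      have h1 := hUNI ι K w (m' + 1) ((L i).erase x)
        (Fin.cons {restr x (p.2 : ℕ) (A p.1 i)}
          (fun t => {restr x ((b t).2 : ℕ) (A (b t).1 i)})) (by
          intro t
          refine Fin.cases ?_ (fun t => ?_) t
          · exact hAr p i
          · exact hAr (b t) i)
      have h2 := hSPN ι K _ _ _ h1
      refine hMON ι K _ _ _ _ _ ?_ ?_ h2
      · calc (m' + 1) * w ≤ (w + 1) * w := by gcongr
          _ = w * (w + 1) := by ring
      · rintro _ rfl
        refine Submodule.sub_mem _ (Submodule.subset_span ?_)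
          (Submodule.sum_mem _ fun t _ => Submodule.smul_mem _ _ (Submodule.subset_span ?_))
        · exact Set.mem_iUnion.2 ⟨0, by simp⟩
        · exact Set.mem_iUnion.2 ⟨t.succ, by simp⟩
    have hNN : ∀ (p : Fin m × Fin (d + 1)) (e : ι → ℕ),
        algebraMap R K (restr x (p.2 : ℕ) (F p.1) e -
          ∑ t, r p t * restr x ((b t).2 : ℕ) (F (b t).1) e)
        = ∑ i, (restr x (p.2 : ℕ) (A p.1 i) -
          ∑ t, algebraMap R K (r p t) • restr x ((b t).2 : ℕ) (A (b t).1 i)) e := by
      intro p e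
      have h1 := congrFun (hy p) e
      simp only [restr, Finset.sum_apply, Pi.smul_apply, smul_eq_mul] at h1
      have h2 : ∀ q : Fin m × Fin (d + 1), algebraMap R K (F q.1 (Function.update e x q.2))
          = S q.1 (Function.update e x q.2) + ∑ i, A q.1 i (Function.update e x q.2) :=
        fun q => hF q.1 _
      simp only [restr, map_sub, map_sum, map_mul, h2, Pi.sub_apply, Finset.sum_apply,
        Pi.smul_apply, smul_eq_mul, Finset.sum_sub_distrib]
      rw [h1]
      simp only [mul_add, Finset.sum_add_distrib, Finset.mul_sum]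
      rw [Finset.sum_comm (s := Finset.univ (α := Fin m')) (t := Finset.univ (α := Fin c))]
      ring
    have hU₁ := fun p => H₁ (w * (w + 1)) d
      (fun e => restr x (p.2 : ℕ) (F p.1) e -
          ∑ t, r p t * restr x ((b t).2 : ℕ) (F (b t).1) e)
      (fun i => restr x (p.2 : ℕ) (A p.1 i) -
          ∑ t, algebraMap R K (r p t) • restr x ((b t).2 : ℕ) (A (b t).1 i))
      (hAA p) (hNN p)
    choose U₁ hU₁a hU₁b using hU₁
    obtain ⟨U₂, hU₂a, hU₂b⟩ := H₂ w d m' (hm'.trans (Nat.le_succ _))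
      (fun t => restr x ((b t).2 : ℕ) (F (b t).1)) (fun t => restr x ((b t).2 : ℕ) (S (b t).1))
      (fun t i => restr x ((b t).2 : ℕ) (A (b t).1 i))
      (hMON ι K w w s _ _ le_rfl (by
        rintro _ ⟨t, rfl⟩
        exact ⟨S (b t).1, ⟨_, rfl⟩, _, rfl⟩) hS1)
      (fun t i => hAr (b t) i)
      (fun t e => hF (b t).1 _)
    let UL : Fin N₂ → Fin m → (ι → ℕ) → k := fun J a e =>
      if h : e x < d + 1 then ∑ t, π (r (a, ⟨e x, h⟩) t) * U₂ J t (Function.update e x 0) else 0
    let UR : Fin N₁ → Fin m → (ι → ℕ) → k := fun J a e =>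
      if h : e x < d + 1 then U₁ (a, ⟨e x, h⟩) J (Function.update e x 0) else 0
    refine ⟨Fin.append UL UR, ?_, ?_⟩
    · intro J
      refine Fin.addCases (fun J => ?_) (fun J => ?_) J
      · show ROs k (width (c + 1) w d) (x :: Fin.append O₂ O₁ (Fin.castAdd N₁ J)) _
        rw [Fin.append_left, Fin.append_left]
        refine ⟨STP_dimRange (hm.trans (STP_width' c w d)) _, ?_⟩
        have h1 := hERS ι k _ _ _ x 0 (hU₂a J)
        rw [hxO₂] at h1
        refine hMON ι k _ _ _ _ _ le_rfl ?_ (hSPN ι k _ _ _ h1)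
        rintro _ ⟨_, ⟨a, rfl⟩, j, rfl⟩
        by_cases hj : j < d + 1
        · have : restr x j (UL J a) = ∑ t, π (r (a, ⟨j, hj⟩) t) • restr x 0 (U₂ J t) := by
            funext e
            simp only [restr, UL, Function.update_self, Function.update_idem, hj,
              dite_true, dite_false, Finset.sum_apply, Pi.smul_apply, smul_eq_mul,
              Pi.zero_apply]
          rw [this]
          exact Submodule.sum_mem _ fun t _ => Submodule.smul_mem _ _
            (Submodule.subset_span ⟨_, ⟨t, rfl⟩, rfl⟩)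
        · have : restr x j (UL J a) = 0 := by
            funext e
            simp only [restr, UL, Function.update_self, Function.update_idem, hj,
              dite_true, dite_false, Finset.sum_apply, Pi.smul_apply, smul_eq_mul,
              Pi.zero_apply]
          rw [this]
          exact Submodule.zero_mem _
      · show ROs k (width (c + 1) w d) (x :: Fin.append O₂ O₁ (Fin.natAdd N₂ J)) _
        rw [Fin.append_right, Fin.append_right]
        refine ⟨STP_dimRange (hm.trans (STP_width' c w d)) _, ?_⟩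
        have hc : 1 ≤ c := by
          rcases Nat.eq_zero_or_pos c with hc | hc
          · have := hN₁0 hc
            have := J.2
            omega
          · exact hc
        have h1 := hUNI ι k (width c (w * (w + 1)) d) (m * (d + 1)) (O₁ J)
          (fun i => {restr x 0 (U₁ (finProdFinEquiv.symm i) J)}) (by
            intro i
            have := hERS ι k _ _ _ x 0 (hU₁a (finProdFinEquiv.symm i) J)
            rwa [hxO₁, Set.image_singleton] at this)
        refine hMON ι k _ _ _ _ _ (STP_width c w d m hc hm) ?_ (hSPN ι k _ _ _ h1)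
        rintro _ ⟨_, ⟨a, rfl⟩, j, rfl⟩
        by_cases hj : j < d + 1
        · have : restr x j (UR J a) = restr x 0 (U₁ (a, ⟨j, hj⟩) J) := by
            funext e
            simp only [restr, UR, Function.update_self, Function.update_idem, hj,
              dite_true, dite_false, Pi.zero_apply]
          rw [this]
          refine Submodule.subset_span (Set.mem_iUnion.2 ⟨finProdFinEquiv (a, ⟨j, hj⟩), ?_⟩)
          simp
        · have : restr x j (UR J a) = 0 := by
            funext e
            simp only [restr, UR, Function.update_self, Function.update_idem, hj,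
              dite_true, dite_false, Pi.zero_apply]
          rw [this]
          exact Submodule.zero_mem _
    · intro a e he
      have hex : e x < d + 1 := Nat.lt_succ_of_le (he x List.mem_cons_self)
      have he' : ∀ y ∈ s, Function.update e x 0 y ≤ d := by
        intro y hy
        have hyx : y ≠ x := fun h => hx (h ▸ hy)
        rw [Function.update_of_ne hyx]
        exact he y (List.mem_cons_of_mem _ hy)
      have e1 := hU₁b (a, ⟨e x, hex⟩) (Function.update e x 0) he'
      have e2 := fun t => hU₂b t (Function.update e x 0) he'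
      have e3 : restr x (e x) (F a) (Function.update e x 0) = F a e := by
        simp [restr]
      simp only [e3, map_sub, map_sum, map_mul, e2] at e1
      rw [Fin.sum_univ_add]
      simp only [Fin.append_left, Fin.append_right]
      have e4 : ∀ J, UL J a e = ∑ t, π (r (a, ⟨e x, hex⟩) t) * U₂ J t (Function.update e x 0) :=
        fun J => by simp only [UL, hex, dite_true]
      have e5 : ∀ J, UR J a e = U₁ (a, ⟨e x, hex⟩) J (Function.update e x 0) :=
        fun J => by simp only [UR, hex, dite_true]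
      simp only [e4, e5]
      rw [← e1, Finset.sum_comm]
      simp only [Finset.mul_sum]
      ring

end Pool.Agent.helper92.VC
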